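import Pool.Agent.helper62.RS.SpecQ

/-!
# Row rs:QDV (MP_07c750_an): derivatives of functions on `M` along the one-parameter groups
-/

set_option autoImplicit false

open scoped MatrixGroups ContDiff Topology UpperHalfPlane ComplexConjugate
open UpperHalfPlane MeasureTheory Filter Set

namespace Pool.Agent.RS

/-- the numerator of `g • i` -/
noncomputable def QDV_N (g : SL(2, ℝ)) : ℂ := (g 0 0 : ℂ) * Complex.I + (g 0 1 : ℂ)

/-- the denominator of `g • i` -/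
noncomputable def QDV_J (g : SL(2, ℝ)) : ℂ := (g 1 0 : ℂ) * Complex.I + (g 1 1 : ℂ)

theorem QDV_W (g : SL(2, ℝ)) : ((g • I : ℍ) : ℂ) = QDV_N g / QDV_J g := by
  rw [UpperHalfPlane.coe_specialLinearGroup_apply]
  rfl

theorem QDV_det (g : SL(2, ℝ)) : (g 0 0 : ℂ) * (g 1 1 : ℂ) - (g 0 1 : ℂ) * (g 1 0 : ℂ) = 1 := by
  have h := g.det_coe
  rw [Matrix.det_fin_two] at h
  exact_mod_cast congrArg (fun x : ℝ => (x : ℂ)) h

theorem QDV_J0 (g : SL(2, ℝ)) : QDV_J g ≠ 0 := by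
  intro h
  have h1 : (QDV_J g).im = 0 := by rw [h]; rfl
  have h2 : (QDV_J g).re = 0 := by rw [h]; rfl
  have h3 : g 1 0 = 0 := by simpa [QDV_J] using h1
  have h4 : g 1 1 = 0 := by simpa [QDV_J] using h2
  have h5 := QDV_det g
  rw [h3, h4] at h5
  simp at h5

theorem QDV_im (g : SL(2, ℝ)) : (g • I : ℍ).im * Complex.normSq (QDV_J g) = 1 := by
  have h0 : Complex.normSq (QDV_J g) ≠ 0 := by
    rw [Ne, Complex.normSq_eq_zero]
    exact QDV_J0 g
  have h1 : (g • I : ℍ).im = (QDV_N g / QDV_J g).im := by rw [← QDV_W]; rfl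
  rw [h1, Complex.div_im]
  have h2 : (QDV_N g).im = g 0 0 := by simp [QDV_N]
  have h3 : (QDV_N g).re = g 0 1 := by simp [QDV_N]
  have h4 : (QDV_J g).im = g 1 0 := by simp [QDV_J]
  have h5 : (QDV_J g).re = g 1 1 := by simp [QDV_J]
  rw [h2, h3, h4, h5]
  have h6 := g.det_coe
  rw [Matrix.det_fin_two] at h6
  field_simp
  linarith

theorem QDV_pos (g : SL(2, ℝ)) : ((g • I : ℍ) : ℂ) ∈ {w : ℂ | 0 < w.im} := (g • I : ℍ).im_pos

theorem QDV_open : IsOpen {w : ℂ | 0 < w.im} := isOpen_lt continuous_const Complex.continuous_im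

/-- the derivatives along a curve in the group -/
theorem QDV_gen (f : ℍ → ℝ) (hf : QU.CD 2 f) (p : ℝ → SL(2, ℝ)) (N' J' v : ℂ)
    (hN : HasDerivAt (fun t => QDV_N (p t)) N' 0) (hJ : HasDerivAt (fun t => QDV_J (p t)) J' 0)
    (hv : N' * QDV_J (p 0) - QDV_N (p 0) * J' = v) :
    HasDerivAt (fun t => f (p t • I))
      (fderiv ℝ (QU.onC f) ((p 0 • I : ℍ) : ℂ) (v / QDV_J (p 0) ^ 2)) 0 ∧
    HasDerivAt (fun t => fderiv ℝ (QU.onC f) ((p t • I : ℍ) : ℂ) (v / QDV_J (p t) ^ 2))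
      (fderiv ℝ (fderiv ℝ (QU.onC f)) ((p 0 • I : ℍ) : ℂ) (v / QDV_J (p 0) ^ 2)
        (v / QDV_J (p 0) ^ 2) + fderiv ℝ (QU.onC f) ((p 0 • I : ℍ) : ℂ)
          (-(2 * v * J') / QDV_J (p 0) ^ 3)) 0 := by
  have hJ0 := QDV_J0 (p 0)
  have hW : HasDerivAt (fun t => ((p t • I : ℍ) : ℂ)) (v / QDV_J (p 0) ^ 2) 0 := by
    have h1 := hN.div hJ hJ0
    simp only [hv] at h1
    refine h1.congr_of_eventuallyEq (Eventually.of_forall fun t => ?_)
    simp only [QDV_W, Pi.div_apply]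
  have hnhd : {w : ℂ | 0 < w.im} ∈ 𝓝 ((p 0 • I : ℍ) : ℂ) := QDV_open.mem_nhds (QDV_pos _)
  have hD1 : HasFDerivAt (QU.onC f) (fderiv ℝ (QU.onC f) ((p 0 • I : ℍ) : ℂ))
      ((p 0 • I : ℍ) : ℂ) :=
    ((hf.contDiffAt hnhd).differentiableAt (by norm_num)).hasFDerivAt
  have hD2 : HasFDerivAt (fderiv ℝ (QU.onC f)) (fderiv ℝ (fderiv ℝ (QU.onC f)) ((p 0 • I : ℍ) : ℂ))
      ((p 0 • I : ℍ) : ℂ) := by
    have h1 : ContDiffOn ℝ 1 (fderiv ℝ (QU.onC f)) {w : ℂ | 0 < w.im} :=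
      ContDiffOn.fderiv_of_isOpen hf QDV_open (by norm_num)
    exact ((h1.contDiffAt hnhd).differentiableAt (by norm_num)).hasFDerivAt
  constructor
  · have h1 := hD1.comp_hasDerivAt (0 : ℝ) hW
    refine h1.congr_of_eventuallyEq (Eventually.of_forall fun t => ?_)
    simp only [Function.comp, QU.onC, ofComplex_apply]
  · have h1 := hD2.comp_hasDerivAt (0 : ℝ) hW
    have h2 : HasDerivAt (fun t => v / QDV_J (p t) ^ 2) (-(2 * v * J') / QDV_J (p 0) ^ 3) 0 := by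
      have h3 := (hasDerivAt_const (0 : ℝ) v).div (hJ.pow 2) (pow_ne_zero 2 hJ0)
      have h4 : (0 * QDV_J (p 0) ^ 2 - v * (((2 : ℕ) : ℂ) * QDV_J (p 0) ^ (2 - 1) * J')) /
          (QDV_J (p 0) ^ 2) ^ 2 = -(2 * v * J') / QDV_J (p 0) ^ 3 := by
        field_simp
        push_cast
        ring
      rw [← h4]
      exact h3
    exact h1.clm_apply h2

/-! ### the two curves -/

theorem QDV_aM (g : SL(2, ℝ)) (t : ℝ) :
    QDV_N (g * aM t) = (g 0 0 : ℂ) * (Real.exp (t / 2) : ℝ) * Complex.I + (g 0 1 : ℂ) * (Real.exp (-(t / 2)) : ℝ) ∧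
    QDV_J (g * aM t) = (g 1 0 : ℂ) * (Real.exp (t / 2) : ℝ) * Complex.I + (g 1 1 : ℂ) * (Real.exp (-(t / 2)) : ℝ) := by
  constructor
  · simp only [QDV_N, aM, Matrix.SpecialLinearGroup.coe_mul, Matrix.mul_apply, Fin.sum_univ_two]
    simp
  · simp only [QDV_J, aM, Matrix.SpecialLinearGroup.coe_mul, Matrix.mul_apply, Fin.sum_univ_two]
    simp

theorem QDV_lM (g : SL(2, ℝ)) (u : ℝ) :
    QDV_N (g * lM u) = ((g 0 0 : ℂ) + (g 0 1 : ℂ) * (u : ℂ)) * Complex.I + (g 0 1 : ℂ) ∧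
    QDV_J (g * lM u) = ((g 1 0 : ℂ) + (g 1 1 : ℂ) * (u : ℂ)) * Complex.I + (g 1 1 : ℂ) := by
  constructor
  · simp only [QDV_N, lM, Matrix.SpecialLinearGroup.coe_mul, Matrix.mul_apply, Fin.sum_univ_two]
    simp
  · simp only [QDV_J, lM, Matrix.SpecialLinearGroup.coe_mul, Matrix.mul_apply, Fin.sum_univ_two]
    simp

theorem QDV_aM0 (g : SL(2, ℝ)) : g * aM 0 = g := by
  have h : aM 0 = 1 := by
    ext i j
    fin_cases i <;> fin_cases j <;> simp [aM]
  rw [h, mul_one]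

theorem QDV_lM0 (g : SL(2, ℝ)) : g * lM 0 = g := by
  have h : lM 0 = 1 := by
    ext i j
    fin_cases i <;> fin_cases j <;> simp [lM]
  rw [h, mul_one]

theorem QDV_daM (g : SL(2, ℝ)) :
    HasDerivAt (fun t => QDV_N (g * aM t)) (((g 0 0 : ℂ) * Complex.I - (g 0 1 : ℂ)) / 2) 0 ∧
    HasDerivAt (fun t => QDV_J (g * aM t)) (((g 1 0 : ℂ) * Complex.I - (g 1 1 : ℂ)) / 2) 0 := by
  have h1 : HasDerivAt (fun t : ℝ => ((Real.exp (t / 2) : ℝ) : ℂ)) (1 / 2) 0 := by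
    have h := ((hasDerivAt_id (0 : ℝ)).div_const 2).exp.ofReal_comp
    simp only [id] at h
    have e : ((Real.exp (0 / 2) * (1 / 2) : ℝ) : ℂ) = 1 / 2 := by simp
    rw [e] at h
    exact h
  have h2 : HasDerivAt (fun t : ℝ => ((Real.exp (-(t / 2)) : ℝ) : ℂ)) (-(1 / 2)) 0 := by
    have h := ((hasDerivAt_id (0 : ℝ)).div_const 2).neg.exp.ofReal_comp
    simp only [id, Pi.neg_apply] at h
    have e : ((Real.exp (-(0 / 2)) * -(1 / 2) : ℝ) : ℂ) = -(1 / 2) := by simp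
    rw [e] at h
    exact h
  have key : ∀ x y : ℂ, HasDerivAt (fun t : ℝ => x * ((Real.exp (t / 2) : ℝ) : ℂ) * Complex.I +
      y * ((Real.exp (-(t / 2)) : ℝ) : ℂ)) ((x * Complex.I - y) / 2) 0 := by
    intro x y
    have h := ((h1.const_mul x).mul_const Complex.I).add (h2.const_mul y)
    have e : x * (1 / 2) * Complex.I + y * -(1 / 2) = (x * Complex.I - y) / 2 := by ring
    rw [e] at h
    exact h
  constructor
  · refine (key _ _).congr_of_eventuallyEq (Eventually.of_forall fun t => ?_)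
    exact (QDV_aM g t).1
  · refine (key _ _).congr_of_eventuallyEq (Eventually.of_forall fun t => ?_)
    exact (QDV_aM g t).2

theorem QDV_dlM (g : SL(2, ℝ)) :
    HasDerivAt (fun u => QDV_N (g * lM u)) ((g 0 1 : ℂ) * Complex.I) 0 ∧
    HasDerivAt (fun u => QDV_J (g * lM u)) ((g 1 1 : ℂ) * Complex.I) 0 := by
  have key : ∀ x y : ℂ, HasDerivAt (fun t : ℝ => (x + y * (t : ℂ)) * Complex.I + y)
      (y * Complex.I) 0 := by
    intro x y
    have h0 : HasDerivAt (fun t : ℝ => (t : ℂ)) 1 0 := (hasDerivAt_id (0 : ℝ)).ofReal_comp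
    have h := (((h0.const_mul y).const_add x).mul_const Complex.I).add_const y
    rw [mul_one] at h
    exact h
  constructor
  · refine (key (g 0 0 : ℂ) (g 0 1 : ℂ)).congr_of_eventuallyEq (Eventually.of_forall fun t => ?_)
    exact (QDV_lM g t).1
  · refine (key (g 1 0 : ℂ) (g 1 1 : ℂ)).congr_of_eventuallyEq (Eventually.of_forall fun t => ?_)
    exact (QDV_lM g t).2

/-! ### the four functions -/

/-- first derivative in the direction `v` -/
noncomputable def QDV_1 (f : ℍ → ℝ) (v : ℂ) (g : SL(2, ℝ)) : ℝ :=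
  fderiv ℝ (QU.onC f) ((g • I : ℍ) : ℂ) (v / QDV_J g ^ 2)

/-- second derivative in the direction `v` with the derivative `w` of the denominator -/
noncomputable def QDV_2 (f : ℍ → ℝ) (v : ℂ) (w : SL(2, ℝ) → ℂ) (g : SL(2, ℝ)) : ℝ :=
  fderiv ℝ (fderiv ℝ (QU.onC f)) ((g • I : ℍ) : ℂ) (v / QDV_J g ^ 2) (v / QDV_J g ^ 2) +
    fderiv ℝ (QU.onC f) ((g • I : ℍ) : ℂ) (-(2 * v * w g) / QDV_J g ^ 3)

theorem QDV_Jc : Continuous QDV_J := by
  unfold QDV_J
  have h1 : Continuous fun g : SL(2, ℝ) => g 1 0 := by fun_prop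
  have h2 : Continuous fun g : SL(2, ℝ) => g 1 1 := by fun_prop
  exact ((Complex.continuous_ofReal.comp h1).mul continuous_const).add
    (Complex.continuous_ofReal.comp h2)

theorem QDV_Wc : Continuous fun g : SL(2, ℝ) => ((g • I : ℍ) : ℂ) := by
  have h : Continuous fun g : SL(2, ℝ) => g • I := by fun_prop
  exact UpperHalfPlane.continuous_coe.comp h

theorem QDV_c1 (f : ℍ → ℝ) (hf : QU.CD 2 f) :
    Continuous fun g : SL(2, ℝ) => fderiv ℝ (QU.onC f) ((g • I : ℍ) : ℂ) :=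
  (ContDiffOn.continuousOn_fderiv_of_isOpen hf QDV_open (by norm_num)).comp_continuous QDV_Wc QDV_pos

theorem QDV_c2 (f : ℍ → ℝ) (hf : QU.CD 2 f) :
    Continuous fun g : SL(2, ℝ) => fderiv ℝ (fderiv ℝ (QU.onC f)) ((g • I : ℍ) : ℂ) := by
  have h1 : ContDiffOn ℝ 1 (fderiv ℝ (QU.onC f)) {w : ℂ | 0 < w.im} :=
    ContDiffOn.fderiv_of_isOpen hf QDV_open (by norm_num)
  exact (ContDiffOn.continuousOn_fderiv_of_isOpen h1 QDV_open (by norm_num)).comp_continuous
    QDV_Wc QDV_pos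

theorem QDV_1c (f : ℍ → ℝ) (hf : QU.CD 2 f) (v : ℂ) : Continuous (QDV_1 f v) :=
  (QDV_c1 f hf).clm_apply (continuous_const.div (QDV_Jc.pow 2) fun g => pow_ne_zero 2 (QDV_J0 g))

theorem QDV_2c (f : ℍ → ℝ) (hf : QU.CD 2 f) (v : ℂ) (w : SL(2, ℝ) → ℂ) (hw : Continuous w) :
    Continuous (QDV_2 f v w) := by
  have h1 : Continuous fun g : SL(2, ℝ) => v / QDV_J g ^ 2 :=
    continuous_const.div (QDV_Jc.pow 2) fun g => pow_ne_zero 2 (QDV_J0 g)
  have h2 : Continuous fun g : SL(2, ℝ) => -(2 * v * w g) / QDV_J g ^ 3 :=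
    ((continuous_const.mul hw).neg).div (QDV_Jc.pow 3) fun g => pow_ne_zero 3 (QDV_J0 g)
  exact (((QDV_c2 f hf).clm_apply h1).clm_apply h1).add ((QDV_c1 f hf).clm_apply h2)

theorem QDV_sum (B : ℂ →L[ℝ] ℂ →L[ℝ] ℝ) (p : ℂ) :
    B p p + B (Complex.I * p) (Complex.I * p) =
      Complex.normSq p * (B 1 1 + B Complex.I Complex.I) := by
  have e1 : p = p.re • (1 : ℂ) + p.im • Complex.I := by
    apply Complex.ext <;> simp
  have e2 : Complex.I * p = (-p.im) • (1 : ℂ) + p.re • Complex.I := by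
    apply Complex.ext <;> simp
  have e3 : B p p = p.re ^ 2 * B 1 1 + p.re * p.im * (B 1 Complex.I + B Complex.I 1) +
      p.im ^ 2 * B Complex.I Complex.I := by
    conv_lhs => rw [e1]
    simp only [map_add, map_smul, add_apply, smul_apply,
      smul_eq_mul]
    ring
  have e4 : B (Complex.I * p) (Complex.I * p) = p.im ^ 2 * B 1 1 -
      p.re * p.im * (B 1 Complex.I + B Complex.I 1) + p.re ^ 2 * B Complex.I Complex.I := by
    rw [e2]
    simp only [map_add, map_smul, add_apply, smul_apply,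
      smul_eq_mul]
    ring
  rw [e3, e4, Complex.normSq_apply]
  ring

set_option linter.unusedVariables false in
theorem QDV (hGLC : GLC_stmt) (hGBD : GBD_stmt) (hSEQ : SEQ_stmt) : QDV_stmt := by
  intro Γ f hΓ hinv hf
  have hda : ∀ g : SL(2, ℝ), (((g 0 0 : ℂ) * Complex.I - (g 0 1 : ℂ)) / 2) * QDV_J g -
      QDV_N g * (((g 1 0 : ℂ) * Complex.I - (g 1 1 : ℂ)) / 2) = Complex.I := by
    intro g
    unfold QDV_J QDV_N
    linear_combination Complex.I * QDV_det g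
  have hdl : ∀ g : SL(2, ℝ), ((g 0 1 : ℂ) * Complex.I) * QDV_J g -
      QDV_N g * ((g 1 1 : ℂ) * Complex.I) = 1 := by
    intro g
    unfold QDV_J QDV_N
    linear_combination QDV_det g + ((g 0 1 : ℂ) * (g 1 0 : ℂ) - (g 0 0 : ℂ) * (g 1 1 : ℂ)) * Complex.I_sq
  set wa : SL(2, ℝ) → ℂ := fun g => ((g 1 0 : ℂ) * Complex.I - (g 1 1 : ℂ)) / 2 with hwa
  set wl : SL(2, ℝ) → ℂ := fun g => (g 1 1 : ℂ) * Complex.I with hwl
  have hwac : Continuous wa := by
    have h1 : Continuous fun g : SL(2, ℝ) => g 1 0 := by fun_prop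
    have h2 : Continuous fun g : SL(2, ℝ) => g 1 1 := by fun_prop
    exact (((Complex.continuous_ofReal.comp h1).mul continuous_const).sub
      (Complex.continuous_ofReal.comp h2)).div_const 2
  have hwlc : Continuous wl := by
    have h2 : Continuous fun g : SL(2, ℝ) => g 1 1 := by fun_prop
    exact (Complex.continuous_ofReal.comp h2).mul continuous_const
  have ha : ∀ g : SL(2, ℝ), HasDerivAt (fun t => f ((g * aM t) • I)) (QDV_1 f Complex.I g) 0 ∧
      HasDerivAt (fun t => QDV_1 f Complex.I (g * aM t)) (QDV_2 f Complex.I wa g) 0 := by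
    intro g
    have h := QDV_gen f hf (fun t => g * aM t) _ _ Complex.I (QDV_daM g).1 (QDV_daM g).2
      (by rw [QDV_aM0]; exact hda g)
    rw [QDV_aM0] at h
    exact h
  have hl : ∀ g : SL(2, ℝ), HasDerivAt (fun t => f ((g * lM t) • I)) (QDV_1 f 1 g) 0 ∧
      HasDerivAt (fun t => QDV_1 f 1 (g * lM t)) (QDV_2 f 1 wl g) 0 := by
    intro g
    have h := QDV_gen f hf (fun t => g * lM t) _ _ 1 (QDV_dlM g).1 (QDV_dlM g).2
      (by rw [QDV_lM0]; exact hdl g)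
    rw [QDV_lM0] at h
    exact h
  have hfi : ∀ (γ : Γ) (g : SL(2, ℝ)), f (((γ : SL(2, ℝ)) * g) • I) = f (g • I) := by
    intro γ g
    rw [mul_smul]
    exact hinv.2 γ _
  have i1 : ∀ (γ : Γ) (g : SL(2, ℝ)), QDV_1 f Complex.I ((γ : SL(2, ℝ)) * g) =
      QDV_1 f Complex.I g := by
    intro γ g
    refine (ha _).1.unique ?_
    simp only [mul_assoc, hfi]
    exact (ha g).1
  have i2 : ∀ (γ : Γ) (g : SL(2, ℝ)), QDV_1 f 1 ((γ : SL(2, ℝ)) * g) = QDV_1 f 1 g := by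
    intro γ g
    refine (hl _).1.unique ?_
    simp only [mul_assoc, hfi]
    exact (hl g).1
  refine ⟨QDV_1 f Complex.I, QDV_2 f Complex.I wa, QDV_1 f 1, QDV_2 f 1 wl,
    ⟨QDV_1c f hf _, i1⟩, ⟨QDV_2c f hf _ wa hwac, fun γ g => ?_⟩, ⟨QDV_1c f hf _, i2⟩,
    ⟨QDV_2c f hf _ wl hwlc, fun γ g => ?_⟩, ⟨?_, hfi⟩, fun g => (ha g).1, fun g => (ha g).2,
    fun g => (hl g).1, fun g => (hl g).2, fun g => ?_⟩
  · refine (ha _).2.unique ?_
    simp only [mul_assoc, i1]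
    exact (ha g).2
  · refine (hl _).2.unique ?_
    simp only [mul_assoc, i2]
    exact (hl g).2
  · have h : Continuous fun g : SL(2, ℝ) => g • I := by fun_prop
    exact hinv.1.comp h
  · have hJ := QDV_J0 g
    have hI2 := Complex.I_sq
    unfold QDV_2 QDV_1 QU.lap
    set L := fderiv ℝ (QU.onC f) ((g • I : ℍ) : ℂ) with hL
    set B := fderiv ℝ (fderiv ℝ (QU.onC f)) ((g • I : ℍ) : ℂ) with hB
    have h1 := QDV_sum B (1 / QDV_J g ^ 2)
    have h2 : Complex.I * (1 / QDV_J g ^ 2) = Complex.I / QDV_J g ^ 2 := by ring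
    rw [h2] at h1
    have h3 : Complex.normSq (1 / QDV_J g ^ 2) = (g • I : ℍ).im ^ 2 := by
      have h4 := QDV_im g
      have h5 : Complex.normSq (QDV_J g) ≠ 0 := by
        rw [Ne, Complex.normSq_eq_zero]
        exact hJ
      rw [map_div₀, map_one, map_pow]
      have h6 : (g • I : ℍ).im = 1 / Complex.normSq (QDV_J g) := by
        field_simp
        exact h4
      rw [h6]
      ring
    rw [h3] at h1
    have h4 : L (-(2 * Complex.I * wa g) / QDV_J g ^ 3) + L (Complex.I / QDV_J g ^ 2) +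
        L (-(2 * 1 * wl g) / QDV_J g ^ 3) = 0 := by
      rw [← map_add, ← map_add]
      have h5 : -(2 * Complex.I * wa g) / QDV_J g ^ 3 + Complex.I / QDV_J g ^ 2 +
          -(2 * 1 * wl g) / QDV_J g ^ 3 = 0 := by
        have h6 : -(2 * Complex.I * wa g) + Complex.I * QDV_J g - (2 * 1 * wl g) = 0 := by
          rw [hwa, hwl]
          unfold QDV_J
          ring
        have h7 : Complex.I / QDV_J g ^ 2 = Complex.I * QDV_J g / QDV_J g ^ 3 := by
          field_simp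
        rw [h7, ← add_div, ← add_div]
        have h8 : -(2 * Complex.I * wa g) + Complex.I * QDV_J g + -(2 * 1 * wl g) = 0 := by
          rw [← h6]; ring
        rw [h8, zero_div]
      rw [h5, map_zero]
    rw [smul_eq_mul]
    linarith

end Pool.Agent.RS
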