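import Pool.Agent.helper29.RS.SpecK
import Pool.Agent.helper62.QU.All

/-!
# Row rs:NR3 (MP_07c750_an): the maximum of the quadratic form of a kernel operator is attained
-/

set_option autoImplicit false

open scoped MatrixGroups ContDiff Topology UpperHalfPlane ComplexConjugate
open UpperHalfPlane MeasureTheory Filter Set

namespace Pool.Agent.RS

/-! ### integrals over compact sets -/

theorem NR3_one (Γ : Subgroup SL(2, ℝ)) (g : ℍ → ℝ) (hg : Integrable g) (γ : Γ) :
    Integrable (fun z => g (γ • z)) ∧ ∫ z, g (γ • z) = ∫ z, g z := by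
  have hinv := QU.A_INV.2.1 Γ
  have : MeasurableConstSMul Γ ℍ := ⟨fun γ => by
    have : Continuous fun z : ℍ => γ • z := continuous_const_smul γ
    exact this.measurable⟩
  have hmp : MeasurePreserving (fun z : ℍ => γ • z) volume volume := measurePreserving_smul γ _
  have hemb : MeasurableEmbedding (fun z : ℍ => γ • z) := measurableEmbedding_const_smul γ
  exact ⟨(hmp.integrable_comp_emb hemb).2 hg, hmp.integral_comp hemb g⟩

theorem NR3_pt (Γ : Subgroup SL(2, ℝ)) (F : Set ℍ) (u : ℍ → ℂ)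
    (hu : ∀ (γ : Γ) (z : ℍ), u (γ • z) = u z) (S : Finset Γ) (z : ℍ) (γ : Γ) (hγ : γ • z ∈ F)
    (hS : γ ∈ S) : ‖u z‖ ≤ ∑ γ ∈ S, F.indicator (fun z => ‖u z‖) (γ • z) := by
  have h1 : ‖u z‖ = F.indicator (fun z => ‖u z‖) (γ • z) := by
    rw [indicator_of_mem hγ, hu]
  rw [h1]
  exact Finset.single_le_sum (f := fun γ : Γ => F.indicator (fun z => ‖u z‖) (γ • z))
    (fun γ _ => indicator_nonneg (fun _ _ => norm_nonneg _) _) hS

theorem NR3_loc (Γ : Subgroup SL(2, ℝ)) (F : Set ℍ) (hΓ : QU.SurfaceGroup Γ) (hF : QU.NiceDom Γ F)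
    (K₁ : Set ℍ) (hK₁ : IsCompact K₁) :
    ∃ n : ℝ, 0 ≤ n ∧ ∀ u : ℍ → ℂ, InvC Γ u → ∫ z in K₁, ‖u z‖ ≤ n * ∫ z in F, ‖u z‖ := by
  obtain ⟨hcount, hfd, hpos, hfin, -, hdisc⟩ := QU.A_DOB Γ F hΓ hF
  obtain ⟨KF, hKF, hFK⟩ := hF.rel
  have hS := hdisc K₁ KF hK₁ hKF
  obtain ⟨S, hS'⟩ : ∃ S : Finset Γ, ∀ γ : Γ, (∃ z ∈ K₁, γ • z ∈ KF) → γ ∈ S :=
    ⟨hS.toFinset, fun γ h => (Set.Finite.mem_toFinset hS).2 h⟩
  refine ⟨S.card, Nat.cast_nonneg _, fun u hu => ?_⟩
  have hgi : Integrable (F.indicator fun z => ‖u z‖) := by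
    rw [integrable_indicator_iff hF.meas]
    exact (hu.1.norm.continuousOn.integrableOn_compact hKF).mono_set hFK
  have h1 : ∀ γ : Γ, ∫ z, (F.indicator fun z => ‖u z‖) (γ • z) = ∫ z in F, ‖u z‖ := by
    intro γ
    rw [(NR3_one Γ _ hgi γ).2, integral_indicator hF.meas]
  have h2 : ∀ γ : Γ, Integrable (fun z => (F.indicator fun z => ‖u z‖) (γ • z)) :=
    fun γ => (NR3_one Γ _ hgi γ).1
  have h3 : ∫ z in K₁, ‖u z‖ ≤ ∫ z, ∑ γ ∈ S, (F.indicator fun z => ‖u z‖) (γ • z) := by
    rw [← integral_indicator hK₁.measurableSet]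
    refine integral_mono ?_ (integrable_finsetSum _ fun γ _ => h2 γ) ?_
    · rw [integrable_indicator_iff hK₁.measurableSet]
      exact hu.1.norm.continuousOn.integrableOn_compact hK₁
    · intro z
      refine indicator_apply_le' (fun hz => ?_) (fun _ => ?_)
      · obtain ⟨γ, hγ, -⟩ := hF.uniq z
        exact NR3_pt Γ F u hu.2 S z γ hγ (hS' γ ⟨z, hz, hFK hγ⟩)
      · exact Finset.sum_nonneg fun γ _ => indicator_nonneg (fun _ _ => norm_nonneg _) _
  refine h3.trans (le_of_eq ?_)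
  rw [integral_finsetSum _ fun γ _ => h2 γ, Finset.sum_congr rfl fun γ _ => h1 γ,
    Finset.sum_const, nsmul_eq_mul]

theorem NR3_cs (F K : Set ℍ) (hK : IsCompact K) (hFK : F ⊆ K) (h0 : 0 < volume F)
    (hfin : volume F < ⊤) (u : ℍ → ℂ) (hu : Continuous u) :
    ∫ z in F, ‖u z‖ ≤ Real.sqrt (volume F).toReal * Real.sqrt (nn F u) := by
  have hV : 0 < (volume F).toReal := ENNReal.toReal_pos h0.ne' hfin.ne
  set V := (volume F).toReal with hVd
  set A := ∫ z in F, ‖u z‖ with hA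
  have hi1 : IntegrableOn (fun z => ‖u z‖) F :=
    (hu.norm.continuousOn.integrableOn_compact hK).mono_set hFK
  have hi2 : IntegrableOn (fun z => ‖u z‖ ^ 2) F :=
    ((hu.norm.pow 2).continuousOn.integrableOn_compact hK).mono_set hFK
  have h : 0 ≤ ∫ z in F, (‖u z‖ - A / V) ^ 2 := integral_nonneg fun _ => sq_nonneg _
  have e : ∫ z in F, (‖u z‖ - A / V) ^ 2 = nn F u - 2 * (A / V) * A + (A / V) ^ 2 * V := by
    have h3 : ∀ z, (‖u z‖ - A / V) ^ 2 = ‖u z‖ ^ 2 - 2 * (A / V) * ‖u z‖ + (A / V) ^ 2 := by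
      intro z; ring
    simp only [h3]
    have hc : IntegrableOn (fun _ : ℍ => (A / V) ^ 2) F := integrableOn_const hfin.ne
    have hi3 : IntegrableOn (fun z => 2 * (A / V) * ‖u z‖) F := hi1.const_mul _
    have hi4 : IntegrableOn (fun z => ‖u z‖ ^ 2 - 2 * (A / V) * ‖u z‖) F := hi2.sub hi3
    rw [integral_add hi4 hc, integral_sub hi2 hi3,
      integral_const_mul, setIntegral_const, smul_eq_mul]
    unfold nn
    rw [← hA, Measure.real, ← hVd]
    ring
  rw [e] at h
  have h4 : A ^ 2 ≤ V * nn F u := by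
    have h5 : nn F u - 2 * (A / V) * A + (A / V) ^ 2 * V = nn F u - A ^ 2 / V := by
      field_simp
      ring
    rw [h5] at h
    have h6 : A ^ 2 / V ≤ nn F u := by linarith
    rwa [div_le_iff₀ hV, mul_comm] at h6
  rw [← Real.sqrt_mul hV.le]
  exact Real.le_sqrt_of_sq_le h4

theorem NR3_bd (B : Set ℍ) (hB : IsCompact B) (f u : ℍ → ℂ) (hu : Continuous u) (M : ℝ)
    (h0 : ∀ w, w ∉ B → f w = 0) (h1 : ∀ w ∈ B, ‖f w‖ ≤ M * ‖u w‖) :
    ‖∫ w : ℍ, f w‖ ≤ M * ∫ w in B, ‖u w‖ := by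
  rw [← setIntegral_eq_integral_of_forall_compl_eq_zero h0, ← integral_const_mul]
  refine norm_integral_le_of_norm_le ((hu.norm.continuousOn.integrableOn_compact hB).const_mul _) ?_
  exact (ae_restrict_iff' hB.measurableSet).2 (Eventually.of_forall h1)

/-! ### the operator -/

theorem NR3_int (K : ℍ → ℍ → ℝ) (hK : Continuous (Function.uncurry K)) (R : ℝ)
    (hR : ∀ z w, K z w ≠ 0 → dist z w ≤ R) (u : ℍ → ℂ) (hu : Continuous u) (z : ℍ) :
    Integrable (fun w => ((K z w : ℝ) : ℂ) * u w) := by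
  have h1 : Continuous fun w => K z w := hK.comp (Continuous.prodMk_right z)
  refine Continuous.integrable_of_hasCompactSupport ((Complex.continuous_ofReal.comp h1).mul hu) ?_
  refine HasCompactSupport.of_support_subset_isCompact (isCompact_closedBall z R) ?_
  intro w hw
  rw [Function.mem_support] at hw
  have h2 : K z w ≠ 0 := by
    intro h
    apply hw
    simp [h]
  rw [Metric.mem_closedBall, dist_comm]
  exact hR z w h2

theorem NR3_inv (Γ : Subgroup SL(2, ℝ)) (K : ℍ → ℍ → ℝ) (hK : QU.PKer Γ K) (u : ℍ → ℂ)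
    (hu : ∀ (γ : Γ) (z : ℍ), u (γ • z) = u z) (γ : Γ) (z : ℍ) : kop K u (γ • z) = kop K u z := by
  have hinv := QU.A_INV.2.1 Γ
  have : MeasurableConstSMul Γ ℍ := ⟨fun γ => by
    have : Continuous fun z : ℍ => γ • z := continuous_const_smul γ
    exact this.measurable⟩
  unfold kop
  rw [← (measurePreserving_smul γ (volume : Measure ℍ)).integral_comp
    (measurableEmbedding_const_smul γ) (fun w => ((K (γ • z) w : ℝ) : ℂ) * u w)]
  refine integral_congr_ae (Eventually.of_forall fun w => ?_)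
  simp only [hK.inv, hu]

theorem NR3_est (Γ : Subgroup SL(2, ℝ)) (F : Set ℍ) (K : ℍ → ℍ → ℝ) (hΓ : QU.SurfaceGroup Γ)
    (hF : QU.NiceDom Γ F) (hK : QU.PKer Γ K) :
    (∃ C : ℝ, 0 ≤ C ∧ ∀ u, InvC Γ u → ∀ z, ‖kop K u z‖ ≤ C * √(nn F u)) ∧
    ∀ ε : ℝ, 0 < ε → ∃ δ : ℝ, 0 < δ ∧ ∀ u, InvC Γ u → ∀ z z', dist z z' < δ →
      ‖kop K u z - kop K u z'‖ ≤ ε * √(nn F u) := by
  obtain ⟨hcount, hfd, hpos, hfin, -, hdisc⟩ := QU.A_DOB Γ F hΓ hF
  obtain ⟨KF, hKF, hFK⟩ := hF.rel
  obtain ⟨R', hR'⟩ := hK.prop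
  set R := max R' 0 with hRdef
  have hR : ∀ z w, K z w ≠ 0 → dist z w ≤ R := fun z w h => (hR' z w h).trans (le_max_left _ _)
  have hR0 : 0 ≤ R := le_max_right _ _
  obtain ⟨K₀, hK₀, hco⟩ := hΓ.cocompact
  obtain ⟨r₀, hr₀⟩ := hK₀.isBounded.subset_closedBall I
  set B0 : Set ℍ := Metric.closedBall I (r₀ + 1) with hB0
  set B1 : Set ℍ := Metric.closedBall I (r₀ + 1 + R) with hB1
  have hcB0 : IsCompact B0 := isCompact_closedBall _ _
  have hcB1 : IsCompact B1 := isCompact_closedBall _ _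
  have hsup : ∀ z ∈ B0, ∀ w, w ∉ B1 → K z w = 0 := by
    intro z hz w hw
    by_contra hne
    apply hw
    rw [hB1, Metric.mem_closedBall]
    rw [hB0, Metric.mem_closedBall] at hz
    calc dist w I ≤ dist w z + dist z I := dist_triangle _ _ _
      _ ≤ R + (r₀ + 1) := by
          have h1 := hR z w hne
          rw [dist_comm] at h1
          linarith
      _ = r₀ + 1 + R := by ring
  obtain ⟨n, hn, hloc⟩ := NR3_loc Γ F hΓ hF B1 hcB1
  set D : ℝ := n * Real.sqrt (volume F).toReal with hD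
  have hD0 : 0 ≤ D := by positivity
  have hD1 : ∀ u, InvC Γ u → ∫ w in B1, ‖u w‖ ≤ D * √(nn F u) := by
    intro u hu
    calc ∫ w in B1, ‖u w‖ ≤ n * ∫ z in F, ‖u z‖ := hloc u hu
      _ ≤ n * (Real.sqrt (volume F).toReal * √(nn F u)) := by
          gcongr
          exact NR3_cs F KF hKF hFK hpos hfin u hu.1
      _ = D * √(nn F u) := by rw [hD]; ring
  have hint0 : ∀ u : ℍ → ℂ, 0 ≤ ∫ w in B1, ‖u w‖ := fun u => integral_nonneg fun _ => norm_nonneg _
  have hinv : ∀ u, InvC Γ u → ∀ (γ : Γ) (z : ℍ), kop K u (γ • z) = kop K u z :=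
    fun u hu γ z => NR3_inv Γ K hK u hu.2 γ z
  constructor
  · obtain ⟨M, hM⟩ := (hcB0.prod hcB1).exists_bound_of_continuousOn
      (f := Function.uncurry K) hK.cont.continuousOn
    have hM0 : 0 ≤ max M 0 := le_max_right _ _
    refine ⟨max M 0 * D, by positivity, fun u hu z => ?_⟩
    obtain ⟨γ, hγ⟩ := hco z
    rw [← hinv u hu γ z]
    have hz0 : γ • z ∈ B0 := by
      have := hr₀ hγ
      rw [Metric.mem_closedBall] at this
      rw [hB0, Metric.mem_closedBall]
      linarith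
    calc ‖kop K u (γ • z)‖ ≤ max M 0 * ∫ w in B1, ‖u w‖ := by
          refine NR3_bd B1 hcB1 _ u hu.1 _ ?_ ?_
          · intro w hw
            simp [hsup _ hz0 w hw]
          · intro w hw
            rw [norm_mul, Complex.norm_real]
            gcongr
            exact (hM (γ • z, w) ⟨hz0, hw⟩).trans (le_max_left _ _)
      _ ≤ max M 0 * (D * √(nn F u)) := by
          gcongr
          exact hD1 u hu
      _ = max M 0 * D * √(nn F u) := by ring
  · intro ε hε
    have huc := (hcB0.prod hcB1).uniformContinuousOn_of_continuous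
      (f := Function.uncurry K) hK.cont.continuousOn
    rw [Metric.uniformContinuousOn_iff] at huc
    obtain ⟨δ, hδ, hδ'⟩ := huc (ε / (D + 1)) (by positivity)
    refine ⟨min δ 1, lt_min hδ one_pos, fun u hu z z' hzz => ?_⟩
    obtain ⟨γ, hγ⟩ := hco z
    rw [← hinv u hu γ z, ← hinv u hu γ z']
    have hd : dist (γ • z) (γ • z') < min δ 1 := by rw [QU.BDD_dist]; exact hzz
    have hz1 : dist (γ • z) I ≤ r₀ := by
      have := hr₀ hγ
      rwa [Metric.mem_closedBall] at this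
    have hz0 : γ • z ∈ B0 := by
      rw [hB0, Metric.mem_closedBall]
      linarith
    have hz0' : γ • z' ∈ B0 := by
      rw [hB0, Metric.mem_closedBall]
      calc dist (γ • z') I ≤ dist (γ • z') (γ • z) + dist (γ • z) I := dist_triangle _ _ _
        _ ≤ 1 + r₀ := by
            have h1 := hd.le.trans (min_le_right _ _)
            rw [dist_comm] at h1
            linarith
        _ = r₀ + 1 := by ring
    have e1 : kop K u (γ • z) - kop K u (γ • z') =
        ∫ w : ℍ, (((K (γ • z) w : ℝ) : ℂ) * u w - ((K (γ • z') w : ℝ) : ℂ) * u w) := by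
      unfold kop
      rw [integral_sub (NR3_int K hK.cont R hR u hu.1 _) (NR3_int K hK.cont R hR u hu.1 _)]
    rw [e1]
    calc _ ≤ (ε / (D + 1)) * ∫ w in B1, ‖u w‖ := by
          refine NR3_bd B1 hcB1 _ u hu.1 _ ?_ ?_
          · intro w hw
            simp [hsup _ hz0 w hw, hsup _ hz0' w hw]
          · intro w hw
            rw [← sub_mul, norm_mul, ← Complex.ofReal_sub, Complex.norm_real]
            gcongr
            have h3 := hδ' (γ • z, w) ⟨hz0, hw⟩ (γ • z', w) ⟨hz0', hw⟩ (by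
              rw [Prod.dist_eq, dist_self, max_eq_left dist_nonneg]
              exact lt_of_lt_of_le hd (min_le_left _ _))
            rw [Real.dist_eq] at h3
            exact h3.le
      _ ≤ (ε / (D + 1)) * (D * √(nn F u)) := by
          gcongr
          exact hD1 u hu
      _ = ε * √(nn F u) * (D / (D + 1)) := by ring
      _ ≤ ε * √(nn F u) * 1 := by
          gcongr
          rw [div_le_one (by positivity)]
          linarith
      _ = ε * √(nn F u) := mul_one _

theorem NR3_op (Γ : Subgroup SL(2, ℝ)) (F : Set ℍ) (K : ℍ → ℍ → ℝ) (hΓ : QU.SurfaceGroup Γ)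
    (hF : QU.NiceDom Γ F) (hK : QU.PKer Γ K) (u : ℍ → ℂ) (hu : InvC Γ u) : InvC Γ (kop K u) := by
  refine ⟨?_, fun γ z => NR3_inv Γ K hK u hu.2 γ z⟩
  rw [Metric.continuous_iff]
  intro z ε hε
  have h := (NR3_est Γ F K hΓ hF hK).2 (ε / (2 * (√(nn F u) + 1))) (by positivity)
  obtain ⟨δ, hδ, h⟩ := h
  refine ⟨δ, hδ, fun z' hz' => ?_⟩
  rw [dist_eq_norm]
  refine lt_of_le_of_lt (h u hu z' z hz') ?_
  have h0 : 0 ≤ √(nn F u) := Real.sqrt_nonneg _
  have h1 : ε / (2 * (√(nn F u) + 1)) * √(nn F u) = ε / 2 * (√(nn F u) / (√(nn F u) + 1)) := by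
    field_simp
  rw [h1]
  have h2 : √(nn F u) / (√(nn F u) + 1) ≤ 1 := by
    rw [div_le_one (by positivity)]
    linarith
  nlinarith

theorem NR3_lin (K : ℍ → ℍ → ℝ) (hK : Continuous (Function.uncurry K)) (R : ℝ)
    (hR : ∀ z w, K z w ≠ 0 → dist z w ≤ R) (u v : ℍ → ℂ) (hu : Continuous u) (hv : Continuous v)
    (a b : ℂ) (z : ℍ) : kop K (fun w => a * u w + b * v w) z = a * kop K u z + b * kop K v z := by
  unfold kop
  rw [← integral_const_mul, ← integral_const_mul, ← integral_add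
    ((NR3_int K hK R hR u hu z).const_mul a) ((NR3_int K hK R hR v hv z).const_mul b)]
  refine integral_congr_ae (Eventually.of_forall fun w => ?_)
  simp only []
  ring

/-! ### the quadratic form -/

theorem NR3_sym (Γ : Subgroup SL(2, ℝ)) (F : Set ℍ) (K : ℍ → ℍ → ℝ) (hΓ : QU.SurfaceGroup Γ)
    (hF : QU.NiceDom Γ F) (hK : QU.PKer Γ K) (u v : ℍ → ℂ) (hu : InvC Γ u) (hv : InvC Γ v) :
    ∫ z in F, conj (u z) * kop K v z = ∫ z in F, conj (kop K u z) * v z := by
  have hc : Continuous (Function.uncurry fun z w : ℍ => conj (u z) * (((K z w : ℝ) : ℂ) * v w)) := by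
    have h1 : Continuous fun p : ℍ × ℍ => conj (u p.1) * (((K p.1 p.2 : ℝ) : ℂ) * v p.2) := by
      have h2 : Continuous fun p : ℍ × ℍ => ((K p.1 p.2 : ℝ) : ℂ) :=
        Complex.continuous_ofReal.comp hK.cont
      exact (Complex.continuous_conj.comp (hu.1.comp continuous_fst)).mul
        (h2.mul (hv.1.comp continuous_snd))
    exact h1
  have h := QU.A_SYM Γ F ℂ (fun z w : ℍ => conj (u z) * (((K z w : ℝ) : ℂ) * v w)) hΓ hF hc
    (fun γ z w => by simp only [hu.2, hv.2, hK.inv])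
    (by
      obtain ⟨R, hR⟩ := hK.prop
      refine ⟨R, fun z w h => hR z w ?_⟩
      intro h0
      apply h
      simp [h0])
  have e1 : ∫ z in F, conj (u z) * kop K v z =
      ∫ z in F, ∫ w : ℍ, conj (u z) * (((K z w : ℝ) : ℂ) * v w) := by
    refine integral_congr_ae (Eventually.of_forall fun z => ?_)
    simp only [kop]
    rw [integral_const_mul]
  have e2 : ∫ z in F, conj (kop K u z) * v z =
      ∫ z in F, ∫ w : ℍ, conj (u w) * (((K w z : ℝ) : ℂ) * v z) := by
    refine integral_congr_ae (Eventually.of_forall fun z => ?_)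
    simp only [kop]
    rw [← integral_conj, ← integral_mul_const]
    refine integral_congr_ae (Eventually.of_forall fun w => ?_)
    simp only [map_mul, Complex.conj_ofReal]
    rw [hK.symm z w]
    ring
  rw [e1, e2]
  exact h

/-- the pairing `∫_F conj u v` -/
noncomputable def NR3_B (F : Set ℍ) (u v : ℍ → ℂ) : ℂ := ∫ z in F, conj (u z) * v z

theorem NR3_Bi (F K : Set ℍ) (hK : IsCompact K) (hFK : F ⊆ K) (u v : ℍ → ℂ) (hu : Continuous u)
    (hv : Continuous v) : IntegrableOn (fun z => conj (u z) * v z) F :=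
  (((Complex.continuous_conj.comp hu).mul hv).continuousOn.integrableOn_compact hK).mono_set hFK

theorem NR3_Bn (F : Set ℍ) (u : ℍ → ℂ) : NR3_B F u u = ((nn F u : ℝ) : ℂ) := by
  unfold NR3_B nn
  rw [← integral_complex_ofReal]
  refine integral_congr_ae (Eventually.of_forall fun z => ?_)
  simp only [Complex.conj_mul']
  push_cast
  rfl

/-- expansion of the form at `u - t w` -/
theorem NR3_exp (F K : Set ℍ) (hK : IsCompact K) (hFK : F ⊆ K) (u w u' w' : ℍ → ℂ)
    (hu : Continuous u) (hw : Continuous w) (hu' : Continuous u') (hw' : Continuous w') (t : ℝ) :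
    NR3_B F (fun z => 1 * u z + (-(t : ℂ)) * w z) (fun z => 1 * u' z + (-(t : ℂ)) * w' z) =
      NR3_B F u u' - t * NR3_B F u w' - t * NR3_B F w u' + t ^ 2 * NR3_B F w w' := by
  have i1 := NR3_Bi F K hK hFK u u' hu hu'
  have i2 := NR3_Bi F K hK hFK u w' hu hw'
  have i3 := NR3_Bi F K hK hFK w u' hw hu'
  have i4 := NR3_Bi F K hK hFK w w' hw hw'
  have j2 : IntegrableOn (fun z => (t : ℂ) * (conj (u z) * w' z)) F := i2.const_mul _
  have j3 : IntegrableOn (fun z => (t : ℂ) * (conj (w z) * u' z)) F := i3.const_mul _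
  have j4 : IntegrableOn (fun z => (t : ℂ) ^ 2 * (conj (w z) * w' z)) F := i4.const_mul _
  have k1 : IntegrableOn (fun z => conj (u z) * u' z - (t : ℂ) * (conj (u z) * w' z)) F := i1.sub j2
  have k2 : IntegrableOn (fun z => conj (u z) * u' z - (t : ℂ) * (conj (u z) * w' z) -
    (t : ℂ) * (conj (w z) * u' z)) F := k1.sub j3
  unfold NR3_B
  rw [← integral_const_mul, ← integral_const_mul, ← integral_const_mul, ← integral_sub i1 j2,
    ← integral_sub k1 j3, ← integral_add k2 j4]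
  refine integral_congr_ae (Eventually.of_forall fun z => ?_)
  simp only [map_add, map_mul, map_one, map_neg, Complex.conj_ofReal]
  ring

/-- `N(Tu) ≤ q Q(u)` -/
theorem NR3_ineq (Γ : Subgroup SL(2, ℝ)) (F : Set ℍ) (K : ℍ → ℍ → ℝ) (hΓ : QU.SurfaceGroup Γ)
    (hF : QU.NiceDom Γ F) (hK : QU.PKer Γ K)
    (hpos : ∀ u : ℍ → ℂ, InvC Γ u → 0 ≤ (∫ z in F, conj (u z) * kop K u z).re) (q : ℝ) (hq : 0 < q)
    (hq1 : ∀ u : ℍ → ℂ, InvC Γ u → (∫ z in F, conj (u z) * kop K u z).re ≤ q * nn F u)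
    (u : ℍ → ℂ) (hu : InvC Γ u) :
    nn F (kop K u) ≤ q * (∫ z in F, conj (u z) * kop K u z).re ∧
    nn F (fun z => 1 * kop K u z + (-(q : ℂ)) * u z) ≤
      q * (q * nn F u - (∫ z in F, conj (u z) * kop K u z).re) ∧
    2 * q * (∫ z in F, conj (u z) * kop K u z).re - q ^ 2 * nn F u ≤ nn F (kop K u) := by
  obtain ⟨KF, hKF, hFK⟩ := hF.rel
  obtain ⟨R, hR⟩ := hK.prop
  have hw : InvC Γ (kop K u) := NR3_op Γ F K hΓ hF hK u hu
  have hw' : InvC Γ (kop K (kop K u)) := NR3_op Γ F K hΓ hF hK _ hw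
  set w := kop K u with hwd
  set w' := kop K w with hwd'
  -- first part
  have h1 : InvC Γ (fun z => 1 * u z + (-((1 / q : ℝ) : ℂ)) * w z) := by
    refine ⟨(continuous_const.mul hu.1).add (continuous_const.mul hw.1), fun γ z => ?_⟩
    simp only [hu.2, hw.2]
  have h2 := hpos _ h1
  have e2 : ∀ z, kop K (fun z => 1 * u z + (-((1 / q : ℝ) : ℂ)) * w z) z =
      1 * w z + (-((1 / q : ℝ) : ℂ)) * w' z := fun z =>
    NR3_lin K hK.cont R hR u w hu.1 hw.1 1 _ z
  simp only [e2] at h2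
  have e3 := NR3_exp F KF hKF hFK u w w w' hu.1 hw.1 hw.1 hw'.1 (1 / q)
  unfold NR3_B at e3
  rw [e3] at h2
  have e4 : ∫ z in F, conj (u z) * w' z = ((nn F w : ℝ) : ℂ) := by
    rw [hwd', NR3_sym Γ F K hΓ hF hK u w hu hw, ← hwd]
    exact NR3_Bn F w
  have e5 : ∫ z in F, conj (w z) * w z = ((nn F w : ℝ) : ℂ) := NR3_Bn F w
  rw [e4, e5] at h2
  have e6 : ((∫ z in F, conj (u z) * w z) - ((1 / q : ℝ) : ℂ) * ((nn F w : ℝ) : ℂ) -
      ((1 / q : ℝ) : ℂ) * ((nn F w : ℝ) : ℂ) +
      ((1 / q : ℝ) : ℂ) ^ 2 * ∫ z in F, conj (w z) * w' z).re =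
      (∫ z in F, conj (u z) * w z).re - 2 * (1 / q) * nn F w +
        (1 / q) ^ 2 * (∫ z in F, conj (w z) * w' z).re := by
    rw [← Complex.ofReal_mul, ← Complex.ofReal_pow, Complex.add_re, Complex.sub_re, Complex.sub_re,
      Complex.ofReal_re, Complex.re_ofReal_mul]
    ring
  rw [e6] at h2
  have h3 := hq1 w hw
  rw [← hwd'] at h3
  set Q := (∫ z in F, conj (u z) * w z).re with hQ
  set Q' := (∫ z in F, conj (w z) * w' z).re with hQ'
  have h4 : nn F w ≤ q * Q := by
    have h5 : (1 / q) ^ 2 * Q' ≤ (1 / q) * nn F w := by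
      calc (1 / q) ^ 2 * Q' ≤ (1 / q) ^ 2 * (q * nn F w) := by gcongr
        _ = (1 / q) * nn F w := by field_simp
    have h6 : (1 / q) * nn F w ≤ Q := by linarith
    calc nn F w = q * ((1 / q) * nn F w) := by field_simp
      _ ≤ q * Q := by gcongr
  -- the norm of `w - q u`
  have e7 := NR3_exp F KF hKF hFK w u w u hw.1 hu.1 hw.1 hu.1 q
  rw [NR3_Bn, NR3_Bn, NR3_Bn] at e7
  have e8 : (NR3_B F w u).re = Q := by
    have : NR3_B F w u = NR3_B F u w := by
      unfold NR3_B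
      rw [hwd]
      exact (NR3_sym Γ F K hΓ hF hK u u hu hu).symm
    rw [this]
    rfl
  have e9 : nn F (fun z => 1 * w z + (-(q : ℂ)) * u z) = nn F w - 2 * q * Q + q ^ 2 * nn F u := by
    have h7 := congrArg Complex.re e7
    rw [Complex.ofReal_re, ← Complex.ofReal_pow, Complex.add_re, Complex.sub_re, Complex.sub_re,
      Complex.ofReal_re, Complex.re_ofReal_mul, Complex.re_ofReal_mul, Complex.re_ofReal_mul,
      Complex.ofReal_re, e8] at h7
    rw [h7]
    have e10 : (NR3_B F u w).re = Q := rfl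
    rw [e10]
    ring
  refine ⟨h4, ?_, ?_⟩
  · rw [e9]
    nlinarith
  · have h8 : 0 ≤ nn F (fun z => 1 * w z + (-(q : ℂ)) * u z) :=
      integral_nonneg fun _ => sq_nonneg _
    rw [e9] at h8
    linarith

/-! ### limits -/

theorem NR3_lim (v : ℕ → ℍ → ℂ) (C : ℝ) (hb : ∀ n z, ‖v n z‖ ≤ C)
    (he : ∀ ε : ℝ, 0 < ε → ∃ δ : ℝ, 0 < δ ∧ ∀ n z z', dist z z' < δ → ‖v n z - v n z'‖ ≤ ε) :
    ∃ (U : Filter ℕ) (w : ℍ → ℂ), U.NeBot ∧ U ≤ atTop ∧
      (∀ z, Tendsto (fun n => v n z) U (𝓝 (w z))) ∧ Continuous w ∧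
      ∀ S : Set ℍ, IsCompact S → ∀ ε : ℝ, 0 < ε → ∀ᶠ n in U, ∀ z ∈ S, ‖v n z - w z‖ ≤ ε := by
  have h1 : ∀ z, ∃ x : ℂ, Tendsto (fun n => v n z) (hyperfilter ℕ : Filter ℕ) (𝓝 x) := by
    intro z
    obtain ⟨x, -, hx⟩ := (isCompact_closedBall (0 : ℂ) C).ultrafilter_le_nhds
      ((hyperfilter ℕ).map fun n => v n z) (by
        rw [le_principal_iff]
        refine Filter.mem_map.2 (Filter.Eventually.of_forall fun n => ?_)
        rw [Metric.mem_closedBall, dist_zero_right]
        exact hb n z)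
    exact ⟨x, hx⟩
  choose w hw using h1
  have he' : ∀ ε : ℝ, 0 < ε → ∃ δ : ℝ, 0 < δ ∧ (∀ n z z', dist z z' < δ → ‖v n z - v n z'‖ ≤ ε) ∧
      ∀ z z', dist z z' < δ → ‖w z - w z'‖ ≤ ε := by
    intro ε hε
    obtain ⟨δ, hδ, h⟩ := he ε hε
    refine ⟨δ, hδ, h, fun z z' hzz => ?_⟩
    exact le_of_tendsto ((hw z).sub (hw z')).norm (Eventually.of_forall fun n => h n z z' hzz)
  refine ⟨(hyperfilter ℕ : Filter ℕ), w, inferInstance, Nat.hyperfilter_le_atTop, hw, ?_, ?_⟩
  · rw [Metric.continuous_iff]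
    intro z ε hε
    obtain ⟨δ, hδ, -, h⟩ := he' (ε / 2) (by positivity)
    refine ⟨δ, hδ, fun z' hz' => ?_⟩
    rw [dist_eq_norm]
    exact lt_of_le_of_lt (h z' z hz') (by linarith)
  · intro S hS ε hε
    obtain ⟨δ, hδ, h, h'⟩ := he' (ε / 3) (by positivity)
    obtain ⟨T, -, hT, hST⟩ := hS.finite_cover_balls hδ
    have h2 : ∀ᶠ n in (hyperfilter ℕ : Filter ℕ), ∀ x ∈ T, ‖v n x - w x‖ ≤ ε / 3 := by
      rw [Filter.eventually_all_finite hT]
      intro x _
      have h3 := (hw x)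
      rw [Metric.tendsto_nhds] at h3
      filter_upwards [h3 (ε / 3) (by positivity)] with n hn
      rw [dist_eq_norm] at hn
      exact hn.le
    filter_upwards [h2] with n hn z hz
    obtain ⟨x, hx, hzx⟩ := mem_iUnion₂.1 (hST hz)
    rw [Metric.mem_ball] at hzx
    calc ‖v n z - w z‖ = ‖(v n z - v n x) + (v n x - w x) + (w x - w z)‖ := by
          congr 1
          ring
      _ ≤ ‖v n z - v n x‖ + ‖v n x - w x‖ + ‖w x - w z‖ := norm_add₃_le
      _ ≤ ε / 3 + ε / 3 + ε / 3 := by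
          gcongr
          · exact h n z x hzx
          · exact hn x hx
          · exact h' x z (by rwa [dist_comm])
      _ = ε := by ring

/-- the limit function is an eigenfunction -/
theorem NR3_eig (Γ : Subgroup SL(2, ℝ)) (F : Set ℍ) (K : ℍ → ℍ → ℝ) (hΓ : QU.SurfaceGroup Γ)
    (hF : QU.NiceDom Γ F) (hK : QU.PKer Γ K)
    (hpos : ∀ u : ℍ → ℂ, InvC Γ u → 0 ≤ (∫ z in F, conj (u z) * kop K u z).re) (q : ℝ) (hq : 0 < q)
    (hq1 : ∀ u : ℍ → ℂ, InvC Γ u → (∫ z in F, conj (u z) * kop K u z).re ≤ q * nn F u)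
    (u : ℕ → ℍ → ℂ) (hu : ∀ n, InvC Γ (u n)) (hn : ∀ n, nn F (u n) = 1)
    (hQ : Tendsto (fun n => (∫ z in F, conj (u n z) * kop K (u n) z).re) atTop (𝓝 q)) :
    ∃ v : ℍ → ℂ, InvC Γ v ∧ (∃ z, v z ≠ 0) ∧ ∀ z, kop K v z = (q : ℂ) * v z := by
  obtain ⟨hcount, hfd, hp, hfin, -, hdisc⟩ := QU.A_DOB Γ F hΓ hF
  obtain ⟨KF, hKF, hFK⟩ := hF.rel
  obtain ⟨R, hR⟩ := hK.prop
  obtain ⟨⟨C, hC, hC'⟩, heq⟩ := NR3_est Γ F K hΓ hF hK
  have hv : ∀ n, InvC Γ (kop K (u n)) := fun n => NR3_op Γ F K hΓ hF hK _ (hu n)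
  obtain ⟨U, v, hU, hUt, hlim, hvc, hunif⟩ := NR3_lim (fun n => kop K (u n)) C
    (fun n z => by
      have h := hC' (u n) (hu n) z
      rwa [hn, Real.sqrt_one, mul_one] at h)
    (fun ε hε => by
      obtain ⟨δ, hδ, h⟩ := heq ε hε
      refine ⟨δ, hδ, fun n z z' hzz => ?_⟩
      have h1 := h (u n) (hu n) z z' hzz
      rwa [hn, Real.sqrt_one, mul_one] at h1)
  have hvi : InvC Γ v := by
    refine ⟨hvc, fun γ z => ?_⟩
    have h1 := hlim (γ • z)
    simp only [(hv _).2] at h1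
    exact tendsto_nhds_unique h1 (hlim z)
  have hQU : Tendsto (fun n => (∫ z in F, conj (u n z) * kop K (u n) z).re) U (𝓝 q) := hQ.mono_left hUt
  refine ⟨v, hvi, ?_, fun z => ?_⟩
  · by_contra hne
    push Not at hne
    set V : ℝ := (volume F).toReal with hV
    have hV0 : 0 ≤ V := ENNReal.toReal_nonneg
    set ε : ℝ := √(q ^ 2 / (4 * (V + 1))) with hε
    have hε0 : 0 < ε := Real.sqrt_pos.2 (by positivity)
    have h1 := hunif KF hKF ε hε0
    have h2 : ∀ᶠ n in U, 3 / 4 * q < (∫ z in F, conj (u n z) * kop K (u n) z).re :=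
      hQU.eventually (lt_mem_nhds (by linarith))
    obtain ⟨n, hn1, hn2⟩ := (h1.and h2).exists
    have h3 := (NR3_ineq Γ F K hΓ hF hK hpos q hq hq1 (u n) (hu n)).2.2
    rw [hn n] at h3
    have h4 : nn F (kop K (u n)) ≤ q ^ 2 / 4 := by
      unfold nn
      have h5 : ∫ z in F, ‖kop K (u n) z‖ ^ 2 ≤ ∫ _ in F, ε ^ 2 := by
        refine setIntegral_mono_on ?_ (integrableOn_const hfin.ne) hF.meas ?_
        · exact (((hv n).1.norm.pow 2).continuousOn.integrableOn_compact hKF).mono_set hFK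
        · intro z hz
          have h6 := hn1 z (hFK hz)
          rw [hne z, sub_zero] at h6
          gcongr
      refine h5.trans ?_
      rw [setIntegral_const, smul_eq_mul, Measure.real, ← hV, hε, Real.sq_sqrt (by positivity)]
      calc V * (q ^ 2 / (4 * (V + 1))) = (q ^ 2 / 4) * (V / (V + 1)) := by field_simp
        _ ≤ (q ^ 2 / 4) * 1 := by
            gcongr
            rw [div_le_one (by positivity)]
            linarith
        _ = q ^ 2 / 4 := mul_one _
    nlinarith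
  · -- `K v = q v`
    have h1 : Tendsto (fun n => kop K (kop K (u n)) z) U (𝓝 (kop K v z)) := by
      rw [Metric.tendsto_nhds]
      intro ε hε
      set D : ℝ := ∫ w : ℍ, |K z w| with hD
      have hD0 : 0 ≤ D := integral_nonneg fun _ => abs_nonneg _
      have hKc : Continuous fun w => K z w := hK.cont.comp (Continuous.prodMk_right z)
      have hKi : Integrable fun w => |K z w| := by
        have h2 := NR3_int K hK.cont R hR (fun _ => 1) continuous_const z
        simp only [mul_one] at h2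
        have h3 := h2.norm
        simpa only [Complex.norm_real, Real.norm_eq_abs] using h3
      have h4 := hunif (Metric.closedBall z R) (isCompact_closedBall z R) (ε / (2 * (D + 1)))
        (by positivity)
      filter_upwards [h4] with n hn4
      rw [dist_eq_norm]
      have e1 : kop K (kop K (u n)) z - kop K v z =
          ∫ w : ℍ, (((K z w : ℝ) : ℂ) * kop K (u n) w - ((K z w : ℝ) : ℂ) * v w) := by
        rw [integral_sub (NR3_int K hK.cont R hR _ (hv n).1 z) (NR3_int K hK.cont R hR v hvc z)]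
        rfl
      have e2 : ‖kop K (kop K (u n)) z - kop K v z‖ ≤ ∫ w : ℍ, (ε / (2 * (D + 1))) * |K z w| := by
        rw [e1]
        refine norm_integral_le_of_norm_le (hKi.const_mul _) (Eventually.of_forall fun w => ?_)
        rw [← mul_sub, norm_mul, Complex.norm_real, Real.norm_eq_abs, mul_comm]
        by_cases hw : K z w = 0
        · simp [hw]
        · gcongr
          refine hn4 w ?_
          rw [Metric.mem_closedBall, dist_comm]
          exact hR z w hw
      rw [integral_const_mul, ← hD] at e2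
      refine lt_of_le_of_lt e2 ?_
      calc ε / (2 * (D + 1)) * D = ε / 2 * (D / (D + 1)) := by field_simp
        _ ≤ ε / 2 * 1 := by
            gcongr
            rw [div_le_one (by positivity)]
            linarith
        _ < ε := by linarith
    have h2 : Tendsto (fun n => kop K (kop K (u n)) z - (q : ℂ) * kop K (u n) z) U (𝓝 0) := by
      have h3 : Tendsto (fun n => C * √(q * (q * 1 - (∫ z in F, conj (u n z) * kop K (u n) z).re))) U
          (𝓝 0) := by
        have h4 : Tendsto (fun n => q * (q * 1 - (∫ z in F, conj (u n z) * kop K (u n) z).re)) U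
            (𝓝 (q * (q * 1 - q))) := (hQU.const_sub _).const_mul _
        have h5 := (h4.sqrt).const_mul C
        have h6 : C * √(q * (q * 1 - q)) = 0 := by simp
        rwa [h6] at h5
      refine squeeze_zero_norm (fun n => ?_) h3
      have e1 : kop K (kop K (u n)) z - (q : ℂ) * kop K (u n) z =
          kop K (fun w => 1 * kop K (u n) w + (-(q : ℂ)) * u n w) z := by
        rw [NR3_lin K hK.cont R hR _ _ (hv n).1 (hu n).1]
        ring
      rw [e1]
      have hin : InvC Γ (fun w => 1 * kop K (u n) w + (-(q : ℂ)) * u n w) := by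
        refine ⟨(continuous_const.mul (hv n).1).add (continuous_const.mul (hu n).1), fun γ z => ?_⟩
        simp only [(hv n).2, (hu n).2]
      refine (hC' _ hin z).trans ?_
      gcongr
      have h7 := (NR3_ineq Γ F K hΓ hF hK hpos q hq hq1 (u n) (hu n)).2.1
      rwa [hn n] at h7
    have h3 := h1.sub ((hlim z).const_mul (q : ℂ))
    have h4 := tendsto_nhds_unique h2 h3
    exact (sub_eq_zero.1 h4.symm)

theorem NR3 : NR3_stmt := by
  intro Γ F K hΓ hF hK hpos
  obtain ⟨hcount, hfd, hp, hfin, -, hdisc⟩ := QU.A_DOB Γ F hΓ hF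
  obtain ⟨KF, hKF, hFK⟩ := hF.rel
  obtain ⟨R, hR⟩ := hK.prop
  obtain ⟨⟨C, hC, hC'⟩, -⟩ := NR3_est Γ F K hΓ hF hK
  set P : Set ℝ := {c : ℝ | 0 ≤ c ∧ ∀ u : ℍ → ℂ, InvC Γ u →
    (∫ z in F, conj (u z) * kop K u z).re ≤ c * nn F u} with hP
  have hnn : ∀ u, 0 ≤ nn F u := fun u => integral_nonneg fun _ => sq_nonneg _
  have hne : P.Nonempty := by
    refine ⟨C * √(volume F).toReal, by positivity, fun u hu => ?_⟩
    have hTu := NR3_op Γ F K hΓ hF hK u hu
    calc (∫ z in F, conj (u z) * kop K u z).re ≤ ‖∫ z in F, conj (u z) * kop K u z‖ :=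
          Complex.re_le_norm _
      _ ≤ ∫ z in F, (C * √(nn F u)) * ‖u z‖ := by
          refine norm_integral_le_of_norm_le
            (((hu.1.norm.continuousOn.integrableOn_compact hKF).mono_set hFK).const_mul _)
            (Eventually.of_forall fun z => ?_)
          rw [norm_mul, RCLike.norm_conj, mul_comm]
          gcongr
          exact hC' u hu z
      _ = (C * √(nn F u)) * ∫ z in F, ‖u z‖ := by rw [integral_const_mul]
      _ ≤ (C * √(nn F u)) * (√(volume F).toReal * √(nn F u)) := by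
          gcongr
          exact NR3_cs F KF hKF hFK hp hfin u hu.1
      _ = C * √(volume F).toReal * (√(nn F u) * √(nn F u)) := by ring
      _ = C * √(volume F).toReal * nn F u := by rw [Real.mul_self_sqrt (hnn u)]
  have hbb : BddBelow P := ⟨0, fun c hc => hc.1⟩
  set q : ℝ := sInf P with hqd
  have hq0 : 0 ≤ q := le_csInf hne fun c hc => hc.1
  have hq1 : ∀ u : ℍ → ℂ, InvC Γ u → (∫ z in F, conj (u z) * kop K u z).re ≤ q * nn F u := by
    intro u hu
    rcases (hnn u).eq_or_lt with h0 | h0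
    · obtain ⟨c, hc⟩ := hne
      have h1 := hc.2 u hu
      rw [← h0, mul_zero] at h1 ⊢
      exact h1
    · rw [← div_le_iff₀ h0]
      refine le_csInf hne fun c hc => ?_
      rw [div_le_iff₀ h0]
      exact hc.2 u hu
  refine ⟨q, hq0, hq1, ?_⟩
  rcases hq0.eq_or_lt with h0 | hq
  · exact Or.inl h0.symm
  right
  have hex : ∀ n : ℕ, ∃ u : ℍ → ℂ, InvC Γ u ∧ nn F u = 1 ∧
      q - q / (n + 2) ≤ (∫ z in F, conj (u z) * kop K u z).re := by
    intro n
    have hlt : q - q / (n + 2) < q := by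
      have : 0 < q / (n + 2) := by positivity
      linarith
    have hge : 0 ≤ q - q / (n + 2) := by
      have h1 : q / (n + 2) ≤ q / 1 := by
        gcongr
        have : (0 : ℝ) ≤ n := Nat.cast_nonneg n
        linarith
      rw [div_one] at h1
      linarith
    have hnot : q - q / (n + 2) ∉ P := fun h => absurd (csInf_le hbb h) (not_le.2 hlt)
    have hex1 : ∃ u, InvC Γ u ∧
        (q - q / (n + 2)) * nn F u < (∫ z in F, conj (u z) * kop K u z).re := by
      by_contra hcon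
      push Not at hcon
      exact hnot ⟨hge, hcon⟩
    obtain ⟨u, hu, hlt1⟩ := hex1
    have hnu : 0 < nn F u := by
      rcases (hnn u).eq_or_lt with h1 | h1
      · exfalso
        have h2 := hq1 u hu
        rw [← h1, mul_zero] at h2 hlt1
        linarith
      · exact h1
    set s : ℝ := (√(nn F u))⁻¹ with hs
    have hs2 : s ^ 2 * nn F u = 1 := by
      rw [hs, inv_pow, Real.sq_sqrt hnu.le]
      field_simp
    have hTs : ∀ z, kop K (fun w => (s : ℂ) * u w) z = (s : ℂ) * kop K u z := by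
      intro z
      unfold kop
      rw [← integral_const_mul]
      refine integral_congr_ae (Eventually.of_forall fun w => ?_)
      simp only []
      ring
    refine ⟨fun w => (s : ℂ) * u w, ⟨continuous_const.mul hu.1, fun γ z => by simp only [hu.2]⟩,
      ?_, ?_⟩
    · unfold nn
      have h1 : ∀ z, ‖(s : ℂ) * u z‖ ^ 2 = s ^ 2 * ‖u z‖ ^ 2 := by
        intro z
        rw [norm_mul, mul_pow, Complex.norm_real, Real.norm_eq_abs, sq_abs]
      simp only [h1]
      rw [integral_const_mul]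
      exact hs2
    · simp only [hTs]
      have h1 : ∫ z in F, conj ((s : ℂ) * u z) * ((s : ℂ) * kop K u z) =
          ((s ^ 2 : ℝ) : ℂ) * ∫ z in F, conj (u z) * kop K u z := by
        rw [← integral_const_mul]
        refine integral_congr_ae (Eventually.of_forall fun z => ?_)
        simp only [map_mul, Complex.conj_ofReal]
        push_cast
        ring
      rw [h1, Complex.re_ofReal_mul]
      calc q - q / (n + 2) = s ^ 2 * ((q - q / (n + 2)) * nn F u) := by
            rw [mul_left_comm, hs2, mul_one]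
        _ ≤ _ := by gcongr
  choose u hu hn hQ using hex
  refine NR3_eig Γ F K hΓ hF hK hpos q hq hq1 u hu hn ?_
  refine tendsto_of_tendsto_of_tendsto_of_le_of_le (g := fun n : ℕ => q - q / (n + 2))
    (h := fun _ => q) ?_ tendsto_const_nhds hQ (fun n => ?_)
  · have h1 : Tendsto (fun n : ℕ => q / ((n : ℝ) + 2)) atTop (𝓝 0) := by
      refine Tendsto.div_atTop tendsto_const_nhds ?_
      exact tendsto_atTop_add_const_right _ _ tendsto_natCast_atTop_atTop
    have h2 := h1.const_sub q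
    rwa [sub_zero] at h2
  · have h1 := hq1 (u n) (hu n)
    rwa [hn n, mul_one] at h1

end Pool.Agent.RS
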